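import Pool.Agent.KTB.StmtsKA

/-!
# KTB, row BAS: the base case
-/

set_option autoImplicit false

namespace Pool.Agent.KTB.H49

open Finset Pool.Agent.KTB
open scoped Classical

theorem bas (ray : RayStmt) (trm : TrmStmt) (tun : TunStmt) (bsa : BsaStmt) (uph : UphStmt)
    (brh : BrhStmt) (bfi : BfiStmt) : BasStmt := by
  intro ι T _ D S R K μ hN hnul
  -- nullity after removing a valid set
  have hval : ∀ (A B : Finset ι), D.Valid A B → D.nul (A \ B) + 1 = D.nul A := by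
    intro A B hAB
    obtain ⟨p, f, hne, hray, hll⟩ := hAB
    exact (ray ι T D A B p f hray hne).2.2.2.2.1
  have hall : ∀ R', D.Valid S R' → ∃ M', D.Tm (S \ R') M' := by
    intro R' hR'
    have hR'2 := hR'
    obtain ⟨p, f, hne, hray, hll⟩ := hR'2
    apply trm ι T D (S \ R') hll
    intro Z hZ
    have h1 := hval _ _ hR'
    have h2 := hval _ _ hZ
    have h3 : D.Reach S ((S \ R') \ Z) :=
      Relation.ReflTransGen.tail (Relation.ReflTransGen.single ⟨R', hR', rfl⟩) ⟨Z, hZ, rfl⟩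
    have h4 := hN.min _ h3
    omega
  obtain ⟨M, hM⟩ := hall R hN.vd
  have hnR : D.nul (S \ R) = μ := by
    have := hval _ _ hN.vd
    omega
  -- K is a perfect matching
  have hexc : D.exc (S \ R) K = 0 := by
    have := hN.ipc.sum
    omega
  have hcard : ∀ k ∈ K, (D.E (S \ R) k).card = 2 := by
    intro k hk
    have h1 := hN.ipc.two k hk
    have h2 : (D.E (S \ R) k).card - 2 = 0 := by
      unfold Dat.exc at hexc
      exact (Finset.sum_eq_zero_iff.1 hexc) k hk
    omega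
  have hone : ∀ k ∈ K, ∀ a ∈ S \ R, D.x k a ≠ 0 → a ∈ D.N (S \ R) ∧ D.x k a = 1 := by
    intro k hk a ha hx
    have haN : a ∈ D.N (S \ R) := by
      by_contra hcon
      exact hx (hN.ipc.out a ha hcon k hk)
    obtain ⟨k', hk', h1, h2⟩ := hN.ipc.cov a haN
    have h3 : k = k' := by
      by_contra hne
      exact hx (h2 k hk hne)
    exact ⟨haN, by rw [h3]; exact h1⟩
  have hPM : D.PM (S \ R) (D.N (S \ R)) K := by
    refine ⟨?_, ?_⟩
    · intro k hk
      obtain ⟨y, y', hyy, hE⟩ := Finset.card_eq_two.1 (hcard k hk)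
      have hy : y ∈ D.E (S \ R) k := by rw [hE]; simp
      have hy' : y' ∈ D.E (S \ R) k := by rw [hE]; simp
      have hy1 := Finset.mem_filter.1 hy
      have hy1' := Finset.mem_filter.1 hy'
      obtain ⟨hyN, hyx⟩ := hone k hk y hy1.1 hy1.2
      obtain ⟨hyN', hyx'⟩ := hone k hk y' hy1'.1 hy1'.2
      refine ⟨y, hyN, y', hyN', hy1.1, hy1'.1, hyy, hyx, hyx', ?_⟩
      intro b hb hb1 hb2
      by_contra hx
      have hbE : b ∈ D.E (S \ R) k := Finset.mem_filter.2 ⟨hb, hx⟩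
      rw [hE] at hbE
      simp [hb1, hb2] at hbE
    · intro a ha
      obtain ⟨k, hk, h1, h2⟩ := hN.ipc.cov a ha
      refine ⟨k, ⟨hk, by rw [h1]; exact one_ne_zero⟩, ?_⟩
      rintro j ⟨hj, hjx⟩
      by_contra hne
      exact hjx (h2 j hj hne)
  have hKM : K = M := hM.2.2 K hPM
  subst hKM
  -- a nonparallel valid set
  have hex : ∃ Ra, D.Valid S Ra ∧ ∃ ρ ∈ D.R (S \ R), ∃ r ∈ Ra, ρ r ≠ 0 := by
    by_contra hcon
    push Not at hcon
    obtain ⟨k, hk, r, hr, hx⟩ := hN.tch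
    have hpos := hN.pos
    exact hx (tun ι T D S R K hN.ll hN.vd hM (by omega)
      (fun R' hR' ρ hρ r hr => hcon R' hR' ρ hρ r hr) k hk r hr)
  obtain ⟨Ra, hRa, ρ, hρ, ra, hra, hρra⟩ := hex
  have hconv : ∃ ρ ∈ D.R (S \ Ra), ∃ r ∈ R, ρ r ≠ 0 := by
    by_contra hcon
    push Not at hcon
    have hle : D.R (S \ Ra) ≤ D.R (S \ R) := by
      intro σ hσ
      refine ⟨hσ.1, ?_⟩
      intro a ha
      by_cases haR : a ∈ R
      · exact hcon σ hσ a haR
      · refine hσ.2 a ?_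
        intro haS
        exact ha (Finset.mem_sdiff.2 ⟨(Finset.mem_sdiff.1 haS).1, haR⟩)
    have hfr : Module.finrank ℚ (D.R (S \ Ra)) = Module.finrank ℚ (D.R (S \ R)) := by
      have h1 := hval _ _ hRa
      have h2 := hval _ _ hN.vd
      unfold Dat.nul at h1 h2
      omega
    have heq : D.R (S \ Ra) = D.R (S \ R) := Submodule.eq_of_le_of_finrank_eq hle hfr
    rw [← heq] at hρ
    apply hρra
    apply hρ.2
    intro h
    exact (Finset.mem_sdiff.1 h).2 hra
  obtain ⟨Ma, hMa⟩ := hall Ra hRa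
  obtain ⟨pa, fa, hVa⟩ := hRa
  obtain ⟨p, f, hV⟩ := hN.vd
  obtain ⟨t, ht⟩ := hV.1
  obtain ⟨U, π, kk, hU, hbij, hcl, hsum⟩ := bsa ι T D S Ra R pa p fa f Ma K hVa hV hMa.2.1 hM.2.1
    hconv ⟨ρ, hρ, ra, hra, hρra⟩ t ht
  have hBC : D.BC S R p f K t U π kk :=
    { ll := hN.ll
      vd := hV
      tm := hM
      tR := ht
      all := hall
      tch := hN.tch
      us := hU
      bij := hbij
      cln := hcl
      sum := hsum }
  have hUP := uph ι T D S R p f K t U π kk hBC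
  obtain ⟨Q, Rh, q, hBH⟩ := brh ι T D S R p f K t U π kk hBC hUP
  exact bfi ι T D S R p f K t U π kk Q Rh q hBC hBH

end Pool.Agent.KTB.H49
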